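import Pool.Agent.H954Z.FT.St

/-!
# From prime quotients to all finite modules (`S_ind`) and `S_lower` from `S_lowerDom`
-/

set_option autoImplicit false

namespace Pool.Agent.H463Z.FT

open Filter Topology Pool.Agent.H954Z.FT

lemma lower_of_nonpos (d : ℕ) (ρ : ℝ) (hρ : ρ ≤ 0) (len : ℕ → ℕ∞) : Lower d ρ len := by
  intro ε hε
  refine Eventually.of_forall fun n => ⟨0, by simp, ?_⟩
  have h : (0 : ℝ) ≤ (n : ℝ) ^ d := by positivity
  have : (ρ - ε) * (n : ℝ) ^ d ≤ 0 := mul_nonpos_of_nonpos_of_nonneg (by linarith) h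
  simpa using this

lemma lower_congr {d : ℕ} {ρ ρ' : ℝ} {len len' : ℕ → ℕ∞} (h : Lower d ρ len) (hρ : ρ = ρ')
    (hl : ∀ n, len n = len' n) : Lower d ρ' len' := by
  have : len = len' := funext hl
  rw [← hρ, ← this]; exact h

lemma lower_shift {d : ℕ} {ρ : ℝ} {len : ℕ → ℕ∞} (h : Lower d ρ len) (e : ℕ) :
    Lower d ρ fun n => len (n - e) := by
  intro ε hε
  by_cases hρ : ρ - ε ≤ 0
  · refine Eventually.of_forall fun n => ⟨0, by simp, ?_⟩
    have h : (0 : ℝ) ≤ (n : ℝ) ^ d := by positivity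
    simpa using mul_nonpos_of_nonpos_of_nonneg hρ h
  push Not at hρ
  have h1 := (tendsto_sub_atTop_nat e).eventually (h (ε / 2) (by positivity))
  have hρ2 : 0 < ρ - ε / 2 := by linarith
  have h2 : Tendsto (fun n : ℕ => (1 - (e : ℝ) / n) ^ d) atTop (𝓝 1) := by
    have := ((tendsto_const_div_atTop_nhds_zero_nat (e : ℝ)).const_sub 1).pow d
    simpa using this
  have h3 : (ρ - ε) / (ρ - ε / 2) < 1 := by
    rw [div_lt_one hρ2]; linarith
  filter_upwards [h1, h2.eventually (lt_mem_nhds h3), eventually_ge_atTop e,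
    eventually_gt_atTop 0] with n hn h4 h5 h6
  obtain ⟨m, hm1, hm2⟩ := hn
  refine ⟨m, hm1, le_trans ?_ hm2⟩
  have hn0 : (0 : ℝ) < n := by exact_mod_cast h6
  have e1 : ((n - e : ℕ) : ℝ) = (1 - (e : ℝ) / n) * n := by
    rw [Nat.cast_sub h5]; field_simp
  rw [e1, mul_pow, ← mul_assoc]
  refine mul_le_mul_of_nonneg_right ?_ (by positivity)
  rw [div_lt_iff₀ hρ2] at h4
  linarith

lemma lower_add {d : ℕ} {ρ₁ ρ₃ : ℝ} {l₁ l₂ l₃ : ℕ → ℕ∞} (h₁ : Lower d ρ₁ l₁)
    (h₃ : Lower d ρ₃ l₃) (h : ∀ᶠ n in atTop, l₁ n + l₃ n ≤ l₂ n) : Lower d (ρ₁ + ρ₃) l₂ := by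
  intro ε hε
  filter_upwards [h₁ (ε / 2) (by positivity), h₃ (ε / 2) (by positivity), h] with n a b c
  obtain ⟨m₁, a1, a2⟩ := a
  obtain ⟨m₃, b1, b2⟩ := b
  refine ⟨m₁ + m₃, ?_, ?_⟩
  · push_cast
    exact (add_le_add a1 b1).trans c
  · push_cast
    nlinarith

section Len

variable {A B : Type} [CommRing A] [CommRing B] [Algebra A B]
variable {N₁ N₂ N₃ : Type} [AddCommGroup N₁] [AddCommGroup N₂] [AddCommGroup N₃]
  [Module B N₁] [Module B N₂] [Module B N₃] [Module A N₁] [Module A N₂] [Module A N₃]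
  [IsScalarTower A B N₁] [IsScalarTower A B N₂] [IsScalarTower A B N₃]

lemma length_exact (f : N₁ →ₗ[B] N₂) (g : N₂ →ₗ[B] N₃) (hg : Function.Surjective g)
    (H : Function.Exact f g) (I : Ideal B) :
    Module.length A (N₂ ⧸ (I • ⊤ : Submodule B N₂)) =
      Module.length A (N₁ ⧸ (I • ⊤ : Submodule B N₂).comap f) +
        Module.length A (N₃ ⧸ (I • ⊤ : Submodule B N₃)) := by
  have hmap : (I • ⊤ : Submodule B N₂).map g = I • ⊤ := by
    rw [Submodule.map_smul'', Submodule.map_top, LinearMap.range_eq_top.mpr hg]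
  have hle : (I • ⊤ : Submodule B N₂) ≤ (I • ⊤ : Submodule B N₃).comap g := by
    rw [← Submodule.map_le_iff_le_comap, hmap]
  let f' := Submodule.mapQ ((I • ⊤ : Submodule B N₂).comap f) (I • ⊤) f le_rfl
  let g' := Submodule.mapQ (I • ⊤ : Submodule B N₂) (I • ⊤ : Submodule B N₃) g hle
  refine Module.length_eq_add_of_exact (f'.restrictScalars A) (g'.restrictScalars A) ?_ ?_ ?_
  · rw [injective_iff_map_eq_zero]
    intro x hx
    obtain ⟨x, rfl⟩ := Submodule.Quotient.mk_surjective _ x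
    have hx' : f' (Submodule.Quotient.mk x) = 0 := hx
    rw [Submodule.mapQ_apply, Submodule.Quotient.mk_eq_zero] at hx'
    rw [Submodule.Quotient.mk_eq_zero]
    exact hx'
  · intro y
    obtain ⟨y, rfl⟩ := Submodule.Quotient.mk_surjective _ y
    obtain ⟨x, rfl⟩ := hg y
    exact ⟨Submodule.Quotient.mk x, rfl⟩
  · intro y
    obtain ⟨y, rfl⟩ := Submodule.Quotient.mk_surjective _ y
    constructor
    · intro hy
      have hy' : g' (Submodule.Quotient.mk y) = 0 := hy
      rw [Submodule.mapQ_apply, Submodule.Quotient.mk_eq_zero, ← hmap] at hy'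
      obtain ⟨z, hz, hzy⟩ := hy'
      have : g (y - z) = 0 := by rw [map_sub, hzy, sub_self]
      obtain ⟨x, hx⟩ := (H _).mp this
      refine ⟨Submodule.Quotient.mk x, ?_⟩
      show f' (Submodule.Quotient.mk x) = _
      rw [Submodule.mapQ_apply, Submodule.Quotient.eq, hx]
      simpa using hz
    · rintro ⟨x, hx⟩
      obtain ⟨x, rfl⟩ := Submodule.Quotient.mk_surjective _ x
      rw [← hx]
      show g' (f' (Submodule.Quotient.mk x)) = 0
      rw [Submodule.mapQ_apply, Submodule.mapQ_apply, H.apply_apply_eq_zero]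
      rfl

lemma length_quot_anti (P Q : Submodule B N₁) (h : P ≤ Q) :
    Module.length A (N₁ ⧸ Q) ≤ Module.length A (N₁ ⧸ P) :=
  Module.length_le_of_surjective ((Submodule.factor h).restrictScalars A)
    (Submodule.factor_surjective h)

lemma artin_rees [IsNoetherianRing B] [Module.Finite B N₂] (f : N₁ →ₗ[B] N₂)
    (hf : Function.Injective f) (I : Ideal B) :
    ∃ e : ℕ, ∀ n ≥ e, (I ^ n • ⊤ : Submodule B N₂).comap f ≤ I ^ (n - e) • ⊤ := by
  obtain ⟨e, he⟩ := I.exists_pow_inf_eq_pow_smul (LinearMap.range f)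
  refine ⟨e, fun n hn x hx => ?_⟩
  have h1 : f x ∈ (I ^ n • ⊤ ⊓ LinearMap.range f : Submodule B N₂) := ⟨hx, x, rfl⟩
  rw [he n hn] at h1
  have h2 : f x ∈ (I ^ (n - e) • ⊤ : Submodule B N₁).map f := by
    rw [Submodule.map_smul'', Submodule.map_top]
    exact Submodule.smul_mono le_rfl inf_le_right h1
  obtain ⟨y, hy, hyx⟩ := h2
  rwa [← hf hyx]

lemma finrank_exact [IsDomain A] [Module.Finite A N₂] (f : N₁ →ₗ[B] N₂) (g : N₂ →ₗ[B] N₃)
    (hf : Function.Injective f) (hg : Function.Surjective g) (H : Function.Exact f g) :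
    Module.finrank A N₂ = Module.finrank A N₁ + Module.finrank A N₃ := by
  have h1 := (LinearMap.ker (g.restrictScalars A)).finrank_quotient_add_finrank
  have h2 := ((g.restrictScalars A).quotKerEquivOfSurjective hg).finrank_eq
  have H' : Function.Exact (f.restrictScalars A) (g.restrictScalars A) := H
  have h3 := (LinearEquiv.ofInjective (f.restrictScalars A) hf).finrank_eq
  rw [← LinearMap.exact_iff.mp H'] at h3
  omega

lemma length_equiv (f : N₁ ≃ₗ[B] N₂) (I : Ideal B) :
    Module.length A (N₁ ⧸ (I • ⊤ : Submodule B N₁)) =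
      Module.length A (N₂ ⧸ (I • ⊤ : Submodule B N₂)) := by
  have hmap : (I • ⊤ : Submodule B N₁).map (f : N₁ →ₗ[B] N₂) = I • ⊤ := by
    rw [Submodule.map_smul'', Submodule.map_top, LinearMap.range_eq_top.mpr f.surjective]
  exact ((Submodule.Quotient.equiv _ _ f hmap).restrictScalars A).length_eq

end Len

lemma length_alg {A B C : Type} [CommRing A] [CommRing B] [CommRing C] [Algebra A B]
    [Algebra B C] [Algebra A C] [IsScalarTower A B C] (I : Ideal B) :
    Module.length A (C ⧸ (I • ⊤ : Submodule B C)) =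
      Module.length A (C ⧸ I.map (algebraMap B C)) := by
  rw [Ideal.smul_top_eq_map]
  exact ((Submodule.Quotient.restrictScalarsEquiv B (I.map (algebraMap B C))).restrictScalars
    A).length_eq

theorem ind_gen {A B : Type} [CommRing A] [IsDomain A] [IsNoetherianRing A] [CommRing B]
    [Algebra A B] [Module.Finite A B] (d : ℕ) (𝔠 : Ideal B) (κ : ℝ)
    (h : ∀ P : Ideal B, P.IsPrime → P.comap (algebraMap A B) = ⊥ →
      Lower d (Module.finrank A (B ⧸ P) * κ) fun n =>
        Module.length A ((B ⧸ P) ⧸ (𝔠.map (Ideal.Quotient.mk P)) ^ n))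
    (N : Type) [AddCommGroup N] [Module B N] [hN : Module.Finite B N] :
    ∀ [Module A N] [IsScalarTower A B N],
      Lower d (Module.finrank A N * κ) fun n =>
        Module.length A (N ⧸ (𝔠 ^ n • ⊤ : Submodule B N)) := by
  have : IsNoetherianRing B := Algebra.FiniteType.isNoetherianRing A B
  induction hN using IsNoetherianRing.induction_on_isQuotientEquivQuotientPrime B with
  | subsingleton N =>
    intro _ _
    refine lower_of_nonpos _ _ ?_ _
    rw [Module.finrank_zero_of_subsingleton]; simp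
  | quotient N p f =>
    intro _ _
    have hr : Module.finrank A N = Module.finrank A (B ⧸ p.1) :=
      (f.restrictScalars A).finrank_eq
    by_cases hp : p.1.comap (algebraMap A B) = ⊥
    · refine lower_congr (h p.1 p.2 hp) (by rw [hr]) fun n => ?_
      rw [length_equiv f, length_alg, Ideal.map_pow, Ideal.Quotient.algebraMap_eq]
    · refine lower_of_nonpos _ _ ?_ _
      obtain ⟨a, ha, ha0⟩ := Submodule.exists_mem_ne_zero_of_ne_bot hp
      have : Module.IsTorsion A (B ⧸ p.1) := by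
        intro x
        refine ⟨⟨a, mem_nonZeroDivisors_of_ne_zero ha0⟩, ?_⟩
        show a • x = 0
        rw [Algebra.smul_def, IsScalarTower.algebraMap_apply A B (B ⧸ p.1),
          Ideal.Quotient.algebraMap_eq,
          Ideal.Quotient.eq_zero_iff_mem.mpr (Ideal.mem_comap.mp ha), zero_mul]
      rw [hr, this.finrank_eq_zero]; simp
  | exact N₁ N₂ N₃ f g hf hg H h₁ h₃ =>
    intro _ _
    let : Module A N₁ := Module.compHom N₁ (algebraMap A B)
    let : Module A N₃ := Module.compHom N₃ (algebraMap A B)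
    have : IsScalarTower A B N₁ := .of_algebraMap_smul fun _ _ => rfl
    have : IsScalarTower A B N₃ := .of_algebraMap_smul fun _ _ => rfl
    have : Module.Finite A N₂ := Module.Finite.trans B N₂
    obtain ⟨e, he⟩ := artin_rees f hf 𝔠
    have := lower_add (lower_shift h₁ e) h₃ (l₂ := fun n =>
        Module.length A (N₂ ⧸ (𝔠 ^ n • ⊤ : Submodule B N₂))) (by
      filter_upwards [eventually_ge_atTop e] with n hn
      rw [length_exact f g hg H]
      exact add_le_add_left (length_quot_anti _ _ (he n hn)) _)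
    refine lower_congr this ?_ fun _ => rfl
    rw [finrank_exact (A := A) f g hf hg H]
    push_cast; ring

theorem thm_ind : S_ind := by
  intro k _ d B _ _ _ 𝔠 κ h N _ _ _ _ _
  have : IsDomain (PS d k) := NoZeroDivisors.to_isDomain _
  exact ind_gen d 𝔠 κ h N

theorem thm_lower : S_ind → S_lowerDom → S_lower := by
  intro hind hdom k _ p _ _ d hd T _ _ _ 𝔟 c hc hb
  have := hind k d T 𝔟 ((d / c) ^ d) (fun P hP hP0 => ?_) T
  · refine lower_congr this rfl fun n => ?_
    rw [length_alg, Algebra.algebraMap_self, Ideal.map_id]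
  · have : Module.Finite (PS d k) (T ⧸ P) := Module.Finite.trans T (T ⧸ P)
    refine hdom k p d hd (T ⧸ P) ?_ (𝔟.map (Ideal.Quotient.mk P)) c hc fun Q => ?_
    · rw [injective_iff_map_eq_zero]
      intro a ha
      rw [IsScalarTower.algebraMap_apply (PS d k) T (T ⧸ P), Ideal.Quotient.algebraMap_eq,
        Ideal.Quotient.eq_zero_iff_mem] at ha
      have : a ∈ P.comap (algebraMap (PS d k) T) := ha
      rwa [hP0, Ideal.mem_bot] at this
    · obtain ⟨q, N, h1, h2, h3⟩ := hb Q
      refine ⟨q, N, h1, h2, ?_⟩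
      rw [← Ideal.map_pow, IsScalarTower.algebraMap_eq (PS d k) T (T ⧸ P), ← Ideal.map_map,
        Ideal.Quotient.algebraMap_eq]
      exact Ideal.map_mono h3

end Pool.Agent.H463Z.FT
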